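import Pool.Agent.H74R2.WT.Stmts

/-! Task G3 of helper74's project WT (helper852). -/

set_option autoImplicit false

namespace H74R2.WT

/-- `f` maps good sets to good sets and preserves the `φ`-area. -/
def G3_Inv {K : Subfield ℝ} (σ : K →+* ℝ) (φ : ℝ →+ ℝ) (f : ℂ → ℂ) : Prop :=
  ∀ G : Set ℂ, Gd K G → Gd K (f '' G) ∧ Ar σ φ (f '' G) = Ar σ φ G

theorem G3_comp {K : Subfield ℝ} {σ : K →+* ℝ} {φ : ℝ →+ ℝ} {f g : ℂ → ℂ}
    (hf : G3_Inv σ φ f) (hg : G3_Inv σ φ g) : G3_Inv σ φ (fun z => f (g z)) := by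
  intro G hG
  have h1 := hg G hG
  have h2 := hf _ h1.1
  have h3 : (fun z => f (g z)) '' G = f '' (g '' G) := (Set.image_image f g G).symm
  rw [h3]
  exact ⟨h2.1, h2.2.trans h1.2⟩

theorem G3_gd (hlin : P_gdlin) {K : Subfield ℝ} (p q r s : ℝ) (v : ℂ) (hp : p ∈ K) (hq : q ∈ K)
    (hr : r ∈ K) (hs : s ∈ K) (hd : p * s - q * r ≠ 0) (f : ℂ → ℂ)
    (hf : ∀ z, f z = (⟨p * z.re + q * z.im, r * z.re + s * z.im⟩ : ℂ) + v) (G : Set ℂ)
    (hG : Gd K G) : Gd K (f '' G) := by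
  have h := hlin K p q r s v G hp hq hr hs hd hG
  have e : f = fun z : ℂ => (⟨p * z.re + q * z.im, r * z.re + s * z.im⟩ : ℂ) + v := funext hf
  rw [e]
  exact h

theorem G3_shear (hsh : P_shear) (hlin : P_gdlin) {K : Subfield ℝ} {σ : K →+* ℝ} {φ : ℝ →+ ℝ}
    (hφ : Semi σ φ) (p : ℝ) (hp : p ∈ K) :
    G3_Inv σ φ (fun z : ℂ => (⟨z.re + p * z.im, z.im⟩ : ℂ)) := by
  intro G hG
  refine ⟨G3_gd hlin 1 p 0 1 0 (one_mem K) hp (zero_mem K) (one_mem K) (by norm_num) _ ?_ G hG,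
    hsh K σ φ hφ G p hG⟩
  intro z
  apply Complex.ext <;> simp

theorem G3_swap (hsw : P_swap) (hlin : P_gdlin) {K : Subfield ℝ} {σ : K →+* ℝ} {φ : ℝ →+ ℝ}
    (hφ : Semi σ φ) : G3_Inv σ φ swap := by
  intro G hG
  refine ⟨G3_gd hlin 0 1 1 0 0 (zero_mem K) (one_mem K) (one_mem K) (zero_mem K) (by norm_num) _
    ?_ G hG, hsw K σ φ hφ G hG⟩
  intro z
  apply Complex.ext <;> simp [swap]

theorem G3_tr (htr : P_tr) (hlin : P_gdlin) {K : Subfield ℝ} {σ : K →+* ℝ} {φ : ℝ →+ ℝ}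
    (hφ : Semi σ φ) (v : ℂ) : G3_Inv σ φ (fun z : ℂ => z + v) := by
  intro G hG
  refine ⟨G3_gd hlin 1 0 0 1 v (one_mem K) (zero_mem K) (zero_mem K) (one_mem K) (by norm_num) _
    ?_ G hG, htr K σ φ hφ G v hG⟩
  intro z
  apply Complex.ext <;> simp

theorem G3_conj (hcj : P_conj) (hlin : P_gdlin) {K : Subfield ℝ} {σ : K →+* ℝ} {φ : ℝ →+ ℝ}
    (hφ : Semi σ φ) : G3_Inv σ φ (fun z : ℂ => (starRingEnd ℂ) z) := by
  intro G hG
  refine ⟨G3_gd hlin 1 0 0 (-1) 0 (one_mem K) (zero_mem K) (zero_mem K)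
    (neg_mem (one_mem K)) (by norm_num) _ ?_ G hG, hcj K σ φ hφ G hG⟩
  intro z
  apply Complex.ext <;> simp

theorem G3_rot1 (hsw : P_swap) (hsh : P_shear) (hlin : P_gdlin) {K : Subfield ℝ} {σ : K →+* ℝ}
    {φ : ℝ →+ ℝ} (hφ : Semi σ φ) (u : ℂ) (hu : u ∈ uD K) (hne : u ≠ -1) :
    G3_Inv σ φ (fun z : ℂ => u * z) := by
  obtain ⟨hn, hre, him⟩ := hu
  have h1 : u.re ^ 2 + u.im ^ 2 = 1 := by
    have h := Complex.sq_norm u
    rw [hn, Complex.normSq_apply] at h
    nlinarith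
  have hc : 1 + u.re ≠ 0 := by
    intro h
    apply hne
    have hr : u.re = -1 := by linarith
    have hi : u.im = 0 := by
      rw [hr] at h1
      nlinarith
    apply Complex.ext
    · simpa using hr
    · simpa using hi
  set p : ℝ := -u.im / (1 + u.re) with hp
  have hpK : p ∈ K := div_mem (neg_mem him) (add_mem (one_mem K) hre)
  have hpc : p * (1 + u.re) = -u.im := by
    rw [hp]
    field_simp
  have S1 := G3_shear hsh hlin hφ p hpK
  have S2 := G3_shear hsh hlin hφ u.im him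
  have W := G3_swap hsw hlin hφ
  have h := G3_comp S1 (G3_comp W (G3_comp S2 (G3_comp W S1)))
  have e : (fun z : ℂ => u * z) = fun z : ℂ =>
      (fun z : ℂ => (⟨z.re + p * z.im, z.im⟩ : ℂ)) (swap
        ((fun z : ℂ => (⟨z.re + u.im * z.im, z.im⟩ : ℂ)) (swap
          ((fun z : ℂ => (⟨z.re + p * z.im, z.im⟩ : ℂ)) z)))) := by
    funext z
    have h2 : 1 + p * u.im = u.re := by
      have h3 : (1 + p * u.im - u.re) * (1 + u.re) = 0 := by
        have h4 : p * u.im * (1 + u.re) = -u.im * u.im := by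
          rw [← hpc]
          ring
        linear_combination h4 - h1
      have h5 := (mul_eq_zero.1 h3).resolve_right hc
      linarith
    have h6 : p + p * (1 + p * u.im) = -u.im := by
      rw [h2]
      linarith
    apply Complex.ext
    · simp only [Complex.mul_re, swap]
      linear_combination (-z.re) * h2 - z.im * h6
    · simp only [Complex.mul_im, swap]
      linear_combination (-z.im) * h2
  rw [e]
  exact h

theorem G3_rot (hsw : P_swap) (hsh : P_shear) (hlin : P_gdlin) {K : Subfield ℝ} {σ : K →+* ℝ}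
    {φ : ℝ →+ ℝ} (hφ : Semi σ φ) (u : ℂ) (hu : u ∈ uD K) : G3_Inv σ φ (fun z : ℂ => u * z) := by
  by_cases hne : u = -1
  · have hI : Complex.I ∈ uD K := by
      refine ⟨by simp, ?_, ?_⟩
      · simp
      · simp
    have hIne : Complex.I ≠ -1 := by
      intro h
      have := congrArg Complex.im h
      simp at this
    have h := G3_rot1 hsw hsh hlin hφ Complex.I hI hIne
    have h2 := G3_comp h h
    have e : (fun z : ℂ => u * z) = fun z : ℂ => Complex.I * (Complex.I * z) := by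
      funext z
      rw [← mul_assoc, Complex.I_mul_I, hne]
    rw [e]
    exact h2
  · exact G3_rot1 hsw hsh hlin hφ u hu hne

theorem t_G3 : T_G3 := by
  intro hsw hsh htr hcj hlin K σ φ hφ P A u b hP hu hA
  have R := G3_rot hsw hsh hlin hφ u hu
  have T := G3_tr htr hlin hφ b
  have C := G3_conj hcj hlin hφ
  rcases hA with hA | hA
  · rw [hA]
    exact G3_comp T R P hP
  · rw [hA]
    exact G3_comp T (G3_comp R C) P hP

end H74R2.WT
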